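import Pool.Agent.Helper98.WF.St

set_option autoImplicit false

namespace Pool.Agent.Helper6.WF.M_TA

open Pool.Agent.Helper98.WF
open Polynomial

theorem span_bil {E : Type} [AddCommGroup E] [Module ℚ E] (A : E →ₗ[ℚ] E →ₗ[ℚ] ℚ) (S S' : Set E)
    (h : ∀ x ∈ S, ∀ y ∈ S', A x y = 0) :
    ∀ x ∈ Submodule.span ℚ S, ∀ y ∈ Submodule.span ℚ S', A x y = 0 := by
  intro x hx y hy
  have h1 : ∀ x ∈ S, Submodule.span ℚ S' ≤ LinearMap.ker (A x) := by
    intro x hx
    rw [Submodule.span_le]
    intro y hy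
    exact h x hx y hy
  have h2 : Submodule.span ℚ S ≤ LinearMap.ker (A.flip y) := by
    rw [Submodule.span_le]
    intro x hx
    exact h1 x hx hy
  exact h2 hx

theorem stTA (hRHO : StRHO) (hTOR : StTOR) (hGEN : StGEN) : StTA := by
  intro p _ F E _ _ _ _ L e T A hAlg hL hT hAlt hSm hs hr
  obtain ⟨-, g2, -, -, -, g6, -⟩ := hGEN F E L hL
  have hSmV : Sm L e ≤ VT L e T := (g6 e T).1
  have hTV : ∀ P ∈ T, L P ∈ VT L e T := (g6 e T).2
  have skew : ∀ x ∈ VT L e T, ∀ y ∈ VT L e T, A x y + A y x = 0 := by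
    intro x hx y hy
    have h1 := hAlt (x + y) (Submodule.add_mem _ hx hy)
    have h2 := hAlt x hx
    have h3 := hAlt y hy
    simp only [map_add, LinearMap.add_apply] at h1
    linarith
  have step1 : ∀ R ∈ T, ∀ x ∈ Sm L e, A (L R) x = 0 := by
    intro R hR
    have hP := hT R hR
    obtain ⟨he, r2, r3, -, -, r6, r7, r8, r9⟩ := hRHO F e R hP
    have hfact : Fact (Irreducible R) := ⟨hP.2.1⟩
    obtain ⟨-, -, -, hl⟩ := hTOR p F R hAlg
    have key : ∀ g : (AdjoinRoot R)ˣ, A (L R) (L (rho R (g : AdjoinRoot R))) = 0 := by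
      apply hl
      intro g h
      have na : rho R (g : AdjoinRoot R) ≠ 0 := fun h0 => g.ne_zero ((r6 _).1 h0)
      have nb : rho R (h : AdjoinRoot R) ≠ 0 := fun h0 => h.ne_zero ((r6 _).1 h0)
      have nc : rho R ((g * h : (AdjoinRoot R)ˣ) : AdjoinRoot R) ≠ 0 :=
        fun h0 => (g * h).ne_zero ((r6 _).1 h0)
      have e1 : AdjoinRoot.mk R (rho R (g : AdjoinRoot R) * rho R (h : AdjoinRoot R))
          = AdjoinRoot.mk R (rho R ((g * h : (AdjoinRoot R)ˣ) : AdjoinRoot R)) := by
        rw [map_mul, r2, r2, r2, Units.val_mul]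
      have d1 : (rho R (g : AdjoinRoot R) * rho R (h : AdjoinRoot R)).natDegree < e + e := by
        have := natDegree_mul_le (p := rho R (g : AdjoinRoot R)) (q := rho R (h : AdjoinRoot R))
        have := r3 (g : AdjoinRoot R)
        have := r3 (h : AdjoinRoot R)
        omega
      have d2 : (rho R ((g * h : (AdjoinRoot R)ˣ) : AdjoinRoot R)).natDegree < e + e := by
        have := r3 ((g * h : (AdjoinRoot R)ˣ) : AdjoinRoot R)
        omega
      obtain ⟨s, hs1, hs2⟩ := r8 _ _ e he e1 d1 d2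
      by_cases s0 : s = 0
      · rw [s0, mul_zero, sub_eq_zero] at hs1
        rw [← hs1, hL.mul _ _ na nb, map_add]
      · have h4 := hs R hR _ _ _ s na nb nc s0 (r3 _) (r3 _) (r3 _) hs2 (by rw [← hs1]; ring)
        have m1 := g2 e _ (r3 (g : AdjoinRoot R))
        have m2 := g2 e _ (r3 (h : AdjoinRoot R))
        have m3 := g2 e _ (r3 ((g * h : (AdjoinRoot R)ˣ) : AdjoinRoot R))
        have m4 := g2 e _ hs2
        have mm := Submodule.sub_mem _ (Submodule.add_mem _ m1 m2) m3
        have z1 := hSm _ m4 _ mm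
        have z2 := hSm _ m3 _ mm
        simp only [map_add, map_sub, LinearMap.add_apply, LinearMap.sub_apply] at h4 z1 z2 ⊢
        linarith
    intro x hx
    have h5 : Sm L e ≤ LinearMap.ker (A (L R)) := by
      unfold Sm
      rw [Submodule.span_le]
      rintro y ⟨a, ha0, ha1, rfl⟩
      have hu : AdjoinRoot.mk R a ≠ 0 := r9 a ha0 ha1
      have h6 := key (Units.mk0 _ hu)
      rw [Units.val_mk0, r7 a ha1] at h6
      exact h6
    exact h5 hx
  have step2 : ∀ R ∈ T, ∀ x ∈ Sm L e, A x (L R) = 0 := by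
    intro R hR x hx
    have h1 := skew x (hSmV hx) (L R) (hTV R hR)
    rw [step1 R hR x hx] at h1
    linarith
  have step3 : ∀ R ∈ T, ∀ R' ∈ T, A (L R) (L R') = 0 := by
    intro R' hR' R hR
    by_cases hRR : R = R'
    · rw [hRR]
      exact hAlt _ (hTV R' hR')
    · have hr0 : R - R' ≠ 0 := sub_ne_zero.2 hRR
      have hP := hT R hR
      have hP' := hT R' hR'
      have hd : (R - R').degree < R.degree := by
        apply degree_sub_lt_left
        · rw [degree_eq_natDegree hP.1.ne_zero, degree_eq_natDegree hP'.1.ne_zero, hP.2.2, hP'.2.2]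
        · exact hP.1.ne_zero
        · rw [hP.1.leadingCoeff, hP'.1.leadingCoeff]
      have hd' : (R - R').natDegree < e := by
        have := natDegree_lt_natDegree hr0 hd
        rwa [hP.2.2] at this
      have h1 := hr R hR R' hR' (R - R') hr0 hd' (by ring)
      have m := g2 e _ hd'
      have z1 := step2 R hR _ m
      have z2 := step2 R' hR' _ m
      have z3 := hAlt _ (hTV R' hR')
      simp only [map_sub, LinearMap.sub_apply] at h1
      linarith
  have hV : VT L e T = Submodule.span ℚ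
      ({x | ∃ a : F[X], a ≠ 0 ∧ a.natDegree < e ∧ L a = x} ∪ L '' T) := by
    unfold VT Sm
    rw [Submodule.span_union]
  rw [hV]
  apply span_bil
  have smem : ∀ x : E, (∃ a : F[X], a ≠ 0 ∧ a.natDegree < e ∧ L a = x) → x ∈ Sm L e :=
    fun x hx => Submodule.subset_span hx
  rintro x (hx | ⟨R, hR, rfl⟩) y (hy | ⟨R', hR', rfl⟩)
  · exact hSm x (smem x hx) y (smem y hy)
  · exact step2 R' hR' x (smem x hx)
  · exact step1 R hR y (smem y hy)
  · exact step3 R hR R' hR'

end Pool.Agent.Helper6.WF.M_TA
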